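import Pool.Agent.NGP.Main
import Pool.Agent.NGP.LAb
import Pool.Agent.NGP.PPart
import Pool.Agent.NGP.Cyc
import Pool.Agent.NGP.CycVis
import Pool.Agent.NGP.Auto
import Pool.Agent.NGP.Two

/-!
# MP_250cba_al: arbitrary finite groups whose Sylow automizer is cyclic and faithful on the centre

`G` and `H` are finite groups with the same character table, `P` and `Q` Sylow `p`-subgroups.

(1) If `N_G(P)/P` is abelian, `N_H(Q)/Q C_H(Q)` is cyclic and an element of `N_H(Q)` that centralises
`Z(Q)` lies in `Q C_H(Q)`, then `N_H(Q)/Q` is abelian.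
(2) If `P` is cyclic then `Q` is cyclic and `N_G(P)/P` is abelian iff `N_H(Q)/Q` is.
(3) If `|P| = p` or `|P| = 4` then `N_G(P)/P` is abelian iff `N_H(Q)/Q` is.
(4) The same if `p = 2` and `P` and `Q` are abelian with at most three involutions.
(5) The same if the automorphism groups of `P` and `Q` are `p`-groups.
(6) If `N_G(P)/P` is abelian and some `y ∈ Z(Q)` has its centraliser in `N_H(Q)` inside `Q C_H(Q)`, then
`Q C_H(Q)/Q` is central in `N_H(Q)/Q`.
-/

set_option autoImplicit false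

namespace Pool.Agent.Results.MP_250cba_al.CyclicAutomizer

open Pool.Agent.NGP Pool.Agent.CTab

/-- `N_K(R)/R` is abelian. -/
def NormQuotAbelian {K : Type} [Group K] (R : Subgroup K) : Prop :=
  ∀ a ∈ Subgroup.normalizer (R : Set K), ∀ b ∈ Subgroup.normalizer (R : Set K),
    a * b * a⁻¹ * b⁻¹ ∈ R

/-- `N_K(R)/R C_K(R)` is cyclic, and the elements of `N_K(R)` that centralise `Z(R)` are in
`R C_K(R)`. -/
def CyclicFaithful {K : Type} [Group K] (R : Subgroup K) : Prop :=
  (∃ t ∈ Subgroup.normalizer (R : Set K), ∀ x ∈ Subgroup.normalizer (R : Set K),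
    ∃ k : ℤ, ∃ u ∈ R, ∃ c ∈ Subgroup.centralizer (R : Set K), x = t ^ k * u * c) ∧
  ∀ x ∈ Subgroup.normalizer (R : Set K),
    (∀ z ∈ R, z ∈ Subgroup.centralizer (R : Set K) → x * z = z * x) →
      ∃ u ∈ R, ∃ c ∈ Subgroup.centralizer (R : Set K), x = u * c

private theorem symm_table {G H : Type} [Group G] [Group H] [Finite G] [Finite H]
    {σ : ConjClasses G ≃ ConjClasses H} (h : TabIso σ) : TabIso σ.symm := by
  letI : Fintype G := Fintype.ofFinite G
  letI : Fintype H := Fintype.ofFinite H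
  exact h.symm

private theorem one_side {G H : Type} [Group G] [Group H] [Finite G] [Finite H]
    {σ : ConjClasses G ≃ ConjClasses H} (h : TabIso σ) {p : ℕ} (hp : p.Prime) (P : Sylow p G)
    (Q : Sylow p H) (hP : NormQuotAbelian (P : Subgroup G))
    (hQ : CyclicFaithful (Q : Subgroup H)) : NormQuotAbelian (Q : Subgroup H) := by
  letI : Fintype G := Fintype.ofFinite G
  letI : Fintype H := Fintype.ofFinite H
  haveI : Fact p.Prime := ⟨hp⟩
  exact ab_transfer h P Q hP hQ.1 hQ.2

private theorem central_side {G H : Type} [Group G] [Group H] [Finite G] [Finite H]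
    {σ : ConjClasses G ≃ ConjClasses H} (h : TabIso σ) {p : ℕ} (hp : p.Prime) (P : Sylow p G)
    (Q : Sylow p H) (hP : NormQuotAbelian (P : Subgroup G))
    (hQ : ∃ y ∈ (Q : Subgroup H), y ∈ Subgroup.centralizer ((Q : Subgroup H) : Set H) ∧
      ∀ n ∈ Subgroup.normalizer ((Q : Subgroup H) : Set H), n * y = y * n →
        ∃ u ∈ (Q : Subgroup H), ∃ c ∈ Subgroup.centralizer ((Q : Subgroup H) : Set H),
          n = u * c) :
    ∀ m ∈ Subgroup.normalizer ((Q : Subgroup H) : Set H),
      ∀ c ∈ Subgroup.centralizer ((Q : Subgroup H) : Set H), m * c * m⁻¹ * c⁻¹ ∈ (Q : Subgroup H) := by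
  letI : Fintype G := Fintype.ofFinite G
  letI : Fintype H := Fintype.ofFinite H
  haveI : Fact p.Prime := ⟨hp⟩
  obtain ⟨y, hy, hy', hreg⟩ := hQ
  intro m hm c hc
  obtain ⟨z, hz, hz', l, hl, hl', rfl⟩ := exists_parts hp Q hc
  have h1 := central h P Q hP hy hy' hreg l hl hl' m hm
  have h2 : m * (z * l) * m⁻¹ * (z * l)⁻¹ = (m * z * m⁻¹) * z⁻¹ := by
    calc m * (z * l) * m⁻¹ * (z * l)⁻¹ = (m * z * m⁻¹) * (m * l * m⁻¹) * l⁻¹ * z⁻¹ := by group
      _ = (m * z * m⁻¹) * z⁻¹ := by rw [h1]; group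
  rw [h2]
  exact (Q : Subgroup H).mul_mem ((Subgroup.mem_normalizer_iff.1 hm z).1 hz)
    ((Q : Subgroup H).inv_mem hz)

private theorem two_sides {G H : Type} [Group G] [Group H] [Finite G] [Finite H]
    {σ : ConjClasses G ≃ ConjClasses H} (h : TabIso σ) {p : ℕ} (hp : p.Prime) (P : Sylow p G)
    (Q : Sylow p H) (hP : CyclicFaithful (P : Subgroup G))
    (hQ : CyclicFaithful (Q : Subgroup H)) :
    NormQuotAbelian (P : Subgroup G) ↔ NormQuotAbelian (Q : Subgroup H) :=
  ⟨fun h1 => one_side h hp P Q h1 hQ, fun h1 => one_side (symm_table h) hp Q P h1 hP⟩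

private theorem cf_of_comm {K : Type} [Group K] [Finite K] {R : Subgroup K}
    (hc : CycAut R) (h : ∀ x ∈ R, ∀ y ∈ R, x * y = y * x) : CyclicFaithful R := by
  letI : Fintype K := Fintype.ofFinite K
  exact ⟨hc, faith_of_comm h⟩

private theorem cf_of_cyclic {K : Type} [Group K] [Finite K] {p : ℕ} (hp : p.Prime)
    (R : Sylow p K) (h : IsCyclic (R : Subgroup K)) : CyclicFaithful (R : Subgroup K) := by
  letI : Fintype K := Fintype.ofFinite K
  haveI : Fact p.Prime := ⟨hp⟩
  refine cf_of_comm (cyc_of_cyclic R h) ?_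
  intro x hx y hy
  letI : CommGroup (R : Subgroup K) := IsCyclic.commGroup
  have h1 : (⟨x, hx⟩ : (R : Subgroup K)) * ⟨y, hy⟩ = ⟨y, hy⟩ * ⟨x, hx⟩ := mul_comm _ _
  exact congrArg Subtype.val h1

private theorem cf_of_card_four {K : Type} [Group K] [Finite K]
    (R : Sylow 2 K) (h : Nat.card (R : Subgroup K) = 4) : CyclicFaithful (R : Subgroup K) := by
  letI : Fintype K := Fintype.ofFinite K
  refine cf_of_comm (cyc_of_card_four R h) ?_
  intro x hx y hy
  have h1 : Nat.card (R : Subgroup K) = 2 ^ 2 := by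
    rw [h]
    norm_num
  letI : CommGroup (R : Subgroup K) := IsPGroup.commGroupOfCardEqPrimeSq h1
  have h2 : (⟨x, hx⟩ : (R : Subgroup K)) * ⟨y, hy⟩ = ⟨y, hy⟩ * ⟨x, hx⟩ := mul_comm _ _
  exact congrArg Subtype.val h2

private theorem card_sylow {G H : Type} [Group G] [Group H] [Finite G] [Finite H] {p : ℕ}
    (hp : p.Prime) (hc : Nat.card G = Nat.card H) (P : Sylow p G) (Q : Sylow p H) :
    Nat.card (P : Subgroup G) = Nat.card (Q : Subgroup H) := by
  haveI : Fact p.Prime := ⟨hp⟩
  rw [P.card_eq_multiplicity, Q.card_eq_multiplicity, hc]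

private theorem card_table {G H : Type} [Group G] [Group H] [Finite G] [Finite H]
    {σ : ConjClasses G ≃ ConjClasses H} (h : TabIso σ) : Nat.card G = Nat.card H := by
  letI : Fintype G := Fintype.ofFinite G
  letI : Fintype H := Fintype.ofFinite H
  exact h.card

private theorem cyclic_table {G H : Type} [Group G] [Group H] [Finite G] [Finite H]
    {σ : ConjClasses G ≃ ConjClasses H} (h : TabIso σ) {p : ℕ} (hp : p.Prime) (P : Sylow p G)
    (Q : Sylow p H) (hP : IsCyclic (P : Subgroup G)) : IsCyclic (Q : Subgroup H) := by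
  letI : Fintype G := Fintype.ofFinite G
  letI : Fintype H := Fintype.ofFinite H
  haveI : Fact p.Prime := ⟨hp⟩
  exact cyclic_visible h P Q hP

private theorem cf_of_two {K : Type} [Group K] [Finite K] (R : Sylow 2 K)
    (h : ∀ x ∈ (R : Subgroup K), ∀ y ∈ (R : Subgroup K), x * y = y * x)
    (h4 : Nat.card {x : (R : Subgroup K) // x ^ 2 = 1} ≤ 4) :
    CyclicFaithful (R : Subgroup K) := by
  letI : Fintype K := Fintype.ofFinite K
  exact cf_of_comm (cyc_of_two R h h4) h

private theorem cf_of_aut {K : Type} [Group K] [Finite K] {p : ℕ} (hp : p.Prime)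
    (R : Sylow p K) (h : IsPGroup p (MulAut (R : Subgroup K))) :
    CyclicFaithful (R : Subgroup K) := by
  letI : Fintype K := Fintype.ofFinite K
  haveI : Fact p.Prime := ⟨hp⟩
  exact cyc_of_aut R h

theorem result :
    ∀ (G H : Type) [Group G] [Group H] [Finite G] [Finite H],
      (∃ σ : ConjClasses G ≃ ConjClasses H, ∀ ψ : H → ℂ,
        ((∃ W : FDRep ℂ H, CategoryTheory.Simple W ∧ W.character = ψ) ↔
          ∃ χ : G → ℂ, (∃ V : FDRep ℂ G, CategoryTheory.Simple V ∧ V.character = χ) ∧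
            ∀ g : G, ∀ h : H, σ (ConjClasses.mk g) = ConjClasses.mk h → χ g = ψ h)) →
      ∀ p : ℕ, p.Prime → ∀ (P : Sylow p G) (Q : Sylow p H),
        (NormQuotAbelian (P : Subgroup G) → CyclicFaithful (Q : Subgroup H) →
          NormQuotAbelian (Q : Subgroup H)) ∧
        (IsCyclic (P : Subgroup G) → IsCyclic (Q : Subgroup H) ∧
          (NormQuotAbelian (P : Subgroup G) ↔ NormQuotAbelian (Q : Subgroup H))) ∧
        ((Nat.card (P : Subgroup G) = p ∨ Nat.card (P : Subgroup G) = 4) →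
          (NormQuotAbelian (P : Subgroup G) ↔ NormQuotAbelian (Q : Subgroup H))) ∧
        (p = 2 →
          (∀ x ∈ (P : Subgroup G), ∀ y ∈ (P : Subgroup G), x * y = y * x) →
          (∀ x ∈ (Q : Subgroup H), ∀ y ∈ (Q : Subgroup H), x * y = y * x) →
          Nat.card {x : (P : Subgroup G) // x ^ 2 = 1} ≤ 4 →
          Nat.card {x : (Q : Subgroup H) // x ^ 2 = 1} ≤ 4 →
          (NormQuotAbelian (P : Subgroup G) ↔ NormQuotAbelian (Q : Subgroup H))) ∧
        (IsPGroup p (MulAut (P : Subgroup G)) → IsPGroup p (MulAut (Q : Subgroup H)) →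
          (NormQuotAbelian (P : Subgroup G) ↔ NormQuotAbelian (Q : Subgroup H))) ∧
        (NormQuotAbelian (P : Subgroup G) →
          (∃ y ∈ (Q : Subgroup H), y ∈ Subgroup.centralizer ((Q : Subgroup H) : Set H) ∧
            ∀ n ∈ Subgroup.normalizer ((Q : Subgroup H) : Set H), n * y = y * n →
              ∃ u ∈ (Q : Subgroup H), ∃ c ∈ Subgroup.centralizer ((Q : Subgroup H) : Set H),
                n = u * c) →
          ∀ m ∈ Subgroup.normalizer ((Q : Subgroup H) : Set H),
            ∀ c ∈ Subgroup.centralizer ((Q : Subgroup H) : Set H),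
              m * c * m⁻¹ * c⁻¹ ∈ (Q : Subgroup H)) := by
  intro G H _ _ _ _ hσ p hp P Q
  obtain ⟨σ, h⟩ := hσ
  have h' : TabIso σ := h
  have hcyc : IsCyclic (P : Subgroup G) → IsCyclic (Q : Subgroup H) ∧
      (NormQuotAbelian (P : Subgroup G) ↔ NormQuotAbelian (Q : Subgroup H)) := by
    intro hP
    have hQ := cyclic_table h' hp P Q hP
    exact ⟨hQ, two_sides h' hp P Q (cf_of_cyclic hp P hP) (cf_of_cyclic hp Q hQ)⟩
  refine ⟨fun h1 h2 => one_side h' hp P Q h1 h2, hcyc, ?_, ?_, ?_,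
    fun h1 h2 => central_side h' hp P Q h1 h2⟩
  · intro hc
    haveI : Fact p.Prime := ⟨hp⟩
    rcases hc with hc | hc
    · exact (hcyc (isCyclic_of_prime_card hc)).2
    · have h2 : p = 2 := by
        obtain ⟨a, ha⟩ := P.2.exists_card_eq
        rw [hc] at ha
        have h3 : p ∣ 2 ^ 2 := by
          have h4 : a ≠ 0 := by
            rintro rfl
            norm_num at ha
          have h5 : p ∣ p ^ a := dvd_pow_self p h4
          rw [← ha] at h5
          exact h5
        exact (Nat.prime_dvd_prime_iff_eq hp Nat.prime_two).1 (hp.dvd_of_dvd_pow h3)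
      subst h2
      have hc2 : Nat.card (Q : Subgroup H) = 4 := by
        rw [← card_sylow hp (card_table h') P Q, hc]
      exact two_sides h' hp P Q (cf_of_card_four P hc) (cf_of_card_four Q hc2)
  · intro h2
    subst h2
    intro hP hQ hP4 hQ4
    exact two_sides h' hp P Q (cf_of_two P hP hP4) (cf_of_two Q hQ hQ4)
  · intro hP hQ
    exact two_sides h' hp P Q (cf_of_aut hp P hP) (cf_of_aut hp Q hQ)

end Pool.Agent.Results.MP_250cba_al.CyclicAutomizer
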